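import Pool.Agent.H456.Girth.Minor

/-!
# Logarithmic girth
-/

open Finset Module

open scoped Classical

namespace Pool.Agent.H456.Girth

variable {F : Type} [Field F]

/-- The bounds for the class of matroids without a clique minor. -/
theorem exists_bounds [Fintype F] (n : ℕ) :
    ∃ κ C N : ℕ, Bd (noMinor (KG F n)) (fun r => κ * (r + 1)) ∧
      Bd (coClass (noMinor (KG F n))) (fun r => (Fintype.card F ^ 2 * (r + 1)) ^ N) ∧
      ∀ (m : ℕ) (U : Submodule F (Fin m → F)), noMinor (KG F n) m U → U ≠ ⊥ →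
        ∃ v ∈ U, v ≠ 0 ∧ (#(spt v) : ℝ) * finrank F U ≤ C * m * Real.log (m + 1) := by
  have hP := noMinor_minorClosed (KG F n)
  have hG := not_noMinor (KG F n)
  obtain ⟨κ, hκ⟩ := linear_of_omitsGraphic hP ⟨n, _, _, _, hG⟩
  have hconf : Confined ⊥ (KG F n) := by
    rw [KG, graphic_eq_natMat]
    exact confined_natMat _
  obtain ⟨A, hA⟩ := coClass_omit hconf hG
  obtain ⟨N, hN⟩ := bd_of_omit hP.coClass A hA
  obtain ⟨C, hC⟩ := log_bound hP ⟨_, _, hconf, hG⟩
  exact ⟨κ, C, N, hκ, hN, hC⟩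

variable {α : Type} [Fintype α] {M : Matroid α} {m : ℕ} {v : α → (Fin m → F)}

/-- A nonzero vector of the dual gives a small circuit. -/
theorem exists_circuit
    (hv : ∀ I : Set α, M.Indep I ↔ (I ⊆ M.E ∧ LinearIndependent F (fun x : I => v x)))
    {N : ℕ} (ε : Fin N → α) (hεi : Function.Injective ε) (hε : Set.range ε = M.E)
    {w : Fin N → F} (hw : w ∈ dual (rowsp fun i => v (ε i))) (hw0 : w ≠ 0) :
    ∃ C : Set α, M.IsCircuit C ∧ C.ncard ≤ #(spt w) := by
  have hsum : ∑ i ∈ spt w, w i • v (ε i) = 0 := by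
    have h1 : ∑ i, w i • v (ε i) = 0 := by
      funext k
      have h2 := hw (fun i => v (ε i) k) (mem_rowsp.2 ⟨LinearMap.proj k, fun _ => rfl⟩)
      rw [Finset.sum_apply]
      simpa using h2
    rw [← h1]
    apply sum_subset (subset_univ _)
    intro i _ hi
    rw [mem_spt, not_not] at hi
    rw [hi, zero_smul]
  have hdep : M.Dep (ε '' (spt w : Set (Fin N))) := by
    rw [Matroid.dep_iff]
    refine ⟨fun hind => ?_, ?_⟩
    · have hli := ((hv _).1 hind).2
      have h1 : LinearIndependent F (fun i : spt w => v (ε i)) :=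
        hli.comp (fun i : spt w => (⟨ε i, ⟨i, i.2, rfl⟩⟩ : ε '' (spt w : Set (Fin N)))) (by
          intro a b hab
          exact Subtype.ext (hεi (congrArg Subtype.val hab)))
      rw [Fintype.linearIndependent_iff] at h1
      obtain ⟨i, hi⟩ : ∃ i, w i ≠ 0 := by
        by_contra hall
        push Not at hall
        exact hw0 (funext hall)
      have h2 := h1 (fun i => w i) (by
        rw [← hsum]
        exact (spt w).sum_coe_sort fun i => w i • v (ε i)) ⟨i, mem_spt.2 hi⟩
      exact hi h2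
    · rw [← hε]
      rintro _ ⟨i, _, rfl⟩
      exact ⟨i, rfl⟩
  obtain ⟨C, hC, hCc⟩ := hdep.exists_isCircuit_subset
  refine ⟨C, hCc, ?_⟩
  calc C.ncard ≤ (ε '' (spt w : Set (Fin N))).ncard := Set.ncard_le_ncard hC (Set.toFinite _)
    _ ≤ (spt w : Set (Fin N)).ncard := Set.ncard_image_le (Set.toFinite _)
    _ = #(spt w) := Set.ncard_coe_finset _

/-- The vector with entry `1` at `e` and `-1` at `e'`. -/
def dvec {N : ℕ} (e e' : Fin N) : Fin N → F := fun i => if i = e then 1 else if i = e' then -1 else 0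

theorem spt_dvec {N : ℕ} (e e' : Fin N) : #(spt (dvec e e' : Fin N → F)) ≤ 2 := by
  have : spt (dvec e e' : Fin N → F) ⊆ {e, e'} := by
    intro i hi
    rw [mem_spt, dvec] at hi
    rw [mem_insert, mem_singleton]
    by_contra h
    push Not at h
    rw [if_neg h.1, if_neg h.2] at hi
    exact hi rfl
  exact (card_le_card this).trans card_le_two

theorem dvec_ne {N : ℕ} (e e' : Fin N) : (dvec e e' : Fin N → F) ≠ 0 := by
  intro h
  have := congrFun h e
  rw [dvec, if_pos rfl] at this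
  exact one_ne_zero this

theorem dvec_mem_dual {N : ℕ} {U : Submodule F (Fin N → F)} {e e' : Fin N} (hne : e ≠ e')
    (h : ∀ u ∈ U, u e = u e') : dvec e e' ∈ dual U := by
  intro u hu
  have h1 : ∀ i, dvec e e' i * u i = (if i = e then u i else 0) + (if i = e' then -u i else 0) := by
    intro i
    rw [dvec]
    by_cases hi : i = e
    · rw [if_pos hi, if_pos hi, if_neg (by rw [hi]; exact hne), one_mul, add_zero]
    · by_cases hi' : i = e'
      · rw [if_neg hi, if_pos hi', if_neg hi, if_pos hi']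
        ring
      · rw [if_neg hi, if_neg hi', if_neg hi, if_neg hi']
        ring
  simp_rw [h1]
  rw [sum_add_distrib, sum_ite_eq' univ, sum_ite_eq' univ, if_pos (mem_univ _),
    if_pos (mem_univ _), h u hu]
  ring

/-- Cosimple matroids have no small vectors in the row space. -/
theorem no_small
    (hv : ∀ I : Set α, M.Indep I ↔ (I ⊆ M.E ∧ LinearIndependent F (fun x : I => v x)))
    (hco : ∀ I : Set α, I ⊆ M.E → I.ncard ≤ 2 → M.dual.Indep I)
    {N : ℕ} (ε : Fin N → α) (hε : Set.range ε = M.E)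
    {u : Fin N → F} (hu : u ∈ rowsp fun i => v (ε i)) (hs : #(spt u) ≤ 2) : u = 0 := by
  obtain ⟨φ, hφ⟩ := mem_rowsp.1 hu
  have h1 : (ε '' (spt u : Set (Fin N))).ncard ≤ 2 :=
    (Set.ncard_image_le (Set.toFinite _)).trans (by rw [Set.ncard_coe_finset]; exact hs)
  have h2 : ε '' (spt u : Set (Fin N)) ⊆ M.E := by
    rw [← hε]
    rintro _ ⟨i, _, rfl⟩
    exact ⟨i, rfl⟩
  have h3 := ((dual_indep_iff hv _).1 (hco _ h2 h1)).2 φ (by
    intro x hx hxs
    rw [← hε] at hx
    obtain ⟨i, rfl⟩ := hx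
    rw [hφ]
    by_contra h0
    exact hxs ⟨i, mem_spt.2 h0, rfl⟩)
  funext i
  rw [← hφ]
  exact h3 _ (by rw [← hε]; exact ⟨i, rfl⟩)

theorem log_ineq {q N r n : ℕ} (hq : 1 ≤ q) (hr : 2 ≤ r) (h : n ≤ (q ^ 2 * (r + 1)) ^ N) :
    Real.log (n + 1) ≤ (1 + 2 * N + 2 * N * Real.log q / Real.log 2) * Real.log r := by
  have hq' : (1 : ℝ) ≤ q := by exact_mod_cast hq
  have hr' : (2 : ℝ) ≤ r := by exact_mod_cast hr
  have hl2 : 0 < Real.log 2 := Real.log_pos (by norm_num)
  have hlq : 0 ≤ Real.log q := Real.log_nonneg hq'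
  have hlr : Real.log 2 ≤ Real.log r := Real.log_le_log (by norm_num) hr'
  have hlr1 : Real.log ((r : ℝ) + 1) ≤ 2 * Real.log r := by
    have h1 : (r : ℝ) + 1 ≤ r ^ 2 := by nlinarith
    calc Real.log ((r : ℝ) + 1) ≤ Real.log ((r : ℝ) ^ 2) := Real.log_le_log (by linarith) h1
      _ = 2 * Real.log r := by rw [Real.log_pow]; norm_num
  have h1 : (1 : ℕ) ≤ (q ^ 2 * (r + 1)) ^ N := Nat.one_le_iff_ne_zero.2 (by positivity)
  have h2 : (n : ℝ) + 1 ≤ 2 * ((q : ℝ) ^ 2 * (r + 1)) ^ N := by
    have : n + 1 ≤ 2 * (q ^ 2 * (r + 1)) ^ N := by omega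
    exact_mod_cast this
  have h3 : Real.log ((n : ℝ) + 1) ≤ Real.log (2 * ((q : ℝ) ^ 2 * (r + 1)) ^ N) :=
    Real.log_le_log (by positivity) h2
  have h4 : Real.log (2 * ((q : ℝ) ^ 2 * (r + 1)) ^ N) =
      Real.log 2 + N * (2 * Real.log q + Real.log ((r : ℝ) + 1)) := by
    rw [Real.log_mul (by norm_num) (by positivity), Real.log_pow, Real.log_mul (by positivity)
      (by positivity), Real.log_pow]
    norm_num
  rw [h4] at h3
  have h5 : Real.log q ≤ Real.log q / Real.log 2 * Real.log r := by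
    rw [div_mul_eq_mul_div, le_div_iff₀ hl2]
    exact mul_le_mul_of_nonneg_left hlr hlq
  have hN : (0 : ℝ) ≤ N := Nat.cast_nonneg _
  calc Real.log ((n : ℝ) + 1) ≤ Real.log 2 + N * (2 * Real.log q + Real.log ((r : ℝ) + 1)) := h3
    _ ≤ Real.log r + N * (2 * (Real.log q / Real.log 2 * Real.log r) + 2 * Real.log r) := by
        have h6 : 2 * Real.log q + Real.log ((r : ℝ) + 1) ≤
            2 * (Real.log q / Real.log 2 * Real.log r) + 2 * Real.log r := by linarith
        have h7 := mul_le_mul_of_nonneg_left h6 hN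
        linarith
    _ = (1 + 2 * N + 2 * N * Real.log q / Real.log 2) * Real.log r := by ring

/-- **Logarithmic girth.** -/
theorem main [Fintype F] (n : ℕ) :
    ∃ c : ℕ, ∀ (α : Type) [Fintype α] (M : Matroid α),
      (∃ (m : ℕ) (v : α → (Fin m → F)), ∀ I : Set α,
          M.Indep I ↔ (I ⊆ M.E ∧ LinearIndependent F (fun x : I => v x))) →
      (∀ I : Set α, I ⊆ M.E → I.ncard ≤ 2 → M.dual.Indep I) →
      (¬ ∃ (C D : Set α) (f : Fin n × Fin n → α),
          Set.InjOn f {p : Fin n × Fin n | p.1 < p.2} ∧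
          f '' {p : Fin n × Fin n | p.1 < p.2} = ((M.dual.contract C).delete D).E ∧
          ∀ I : Set (Fin n × Fin n), I ⊆ {p : Fin n × Fin n | p.1 < p.2} →
            (((M.dual.contract C).delete D).Indep (f '' I) ↔
              LinearIndependent ℚ (fun p : I => ev ℚ p.1))) →
      ∀ B : Set α, M.IsBase B → 2 ≤ B.ncard →
        ∃ C : Set α, M.IsCircuit C ∧ (C.ncard : ℝ) ≤ (c : ℝ) * Real.log (B.ncard : ℝ) := by
  obtain ⟨κ, C, N', hlin, hpol, hlog⟩ := exists_bounds (F := F) n
  set q := Fintype.card F with hq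
  have hq1 : 1 ≤ q := Fintype.card_pos
  set K : ℝ := 1 + 2 * N' + 2 * N' * Real.log q / Real.log 2 with hK
  obtain ⟨c, hc⟩ := exists_nat_ge (2 * κ * C * K + 3)
  refine ⟨c, ?_⟩
  rintro α _ M ⟨m, v, hv⟩ hco hno B hB hB2
  have hl2 : 0 < Real.log 2 := Real.log_pos (by norm_num)
  have hB2' : (2 : ℝ) ≤ (B.ncard : ℝ) := by exact_mod_cast hB2
  have hlr : Real.log 2 ≤ Real.log B.ncard := Real.log_le_log (by norm_num) hB2'
  have hlr0 : 0 < Real.log B.ncard := hl2.trans_le hlr
  have hK0 : 0 ≤ K := by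
    have : 0 ≤ Real.log q := Real.log_nonneg (by exact_mod_cast hq1)
    positivity
  have hc3 : (3 : ℝ) ≤ c := by
    have : 0 ≤ 2 * (κ : ℝ) * C * K := by positivity
    linarith
  -- enumeration of the ground set
  set E : Finset α := M.E.toFinset with hE
  let ε : Fin #E → α := fun i => (E.equivFin.symm i).1
  have hεi : Function.Injective ε := fun a b hab => E.equivFin.symm.injective (Subtype.ext hab)
  have hε : Set.range ε = M.E := by
    ext x
    constructor
    · rintro ⟨i, rfl⟩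
      exact Set.mem_toFinset.1 (E.equivFin.symm i).2
    · intro hx
      have hxE : x ∈ E := by rw [hE, Set.mem_toFinset]; exact hx
      exact ⟨E.equivFin ⟨x, hxE⟩, by simp [ε]⟩
  have hEB : B.ncard ≤ #E := by
    rw [← Set.ncard_eq_toFinset_card']
    exact Set.ncard_le_ncard hB.subset_ground (Set.toFinite _)
  set U : Submodule F (Fin #E → F) := rowsp fun i => v (ε i) with hU
  -- small circuits suffice
  have hfin : ∀ w ∈ dual U, w ≠ 0 → (#(spt w) : ℝ) ≤ c * Real.log B.ncard →
      ∃ C : Set α, M.IsCircuit C ∧ (C.ncard : ℝ) ≤ (c : ℝ) * Real.log (B.ncard : ℝ) := by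
    intro w hw hw0 hle
    obtain ⟨C, hC, hCle⟩ := exists_circuit hv ε hεi hε hw hw0
    exact ⟨C, hC, le_trans (by exact_mod_cast hCle) hle⟩
  by_cases hsep : Sep U
  swap
  · unfold Sep at hsep
    push Not at hsep
    obtain ⟨e, e', hne, hall⟩ := hsep
    apply hfin _ (dvec_mem_dual hne hall) (dvec_ne e e')
    have h1 : (#(spt (dvec e e' : Fin #E → F)) : ℝ) ≤ 2 := by exact_mod_cast spt_dvec e e'
    have h2 : (0.6931471803 : ℝ) < Real.log 2 := Real.log_two_gt_d9
    have h3 : (3 : ℝ) * Real.log 2 ≤ c * Real.log B.ncard :=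
      mul_le_mul hc3 hlr hl2.le (by linarith)
    linarith
  -- the dual is in the class
  obtain ⟨a₀, ha₀⟩ : B.Nonempty := by
    rw [← Set.ncard_pos]
    omega
  have hPD : noMinor (KG F n) #E (dual U) := by
    intro hmin
    apply hno
    have h1 : IsMinor (dual (KG F n)) U := by
      have := hmin.dual
      rwa [dual_dual] at this
    exact exists_of_isMinor hv ε hεi hε a₀ h1
  have hsepD : Sep (dual U) := by
    intro e e' hne
    by_contra hall
    push Not at hall
    have h1 := dvec_mem_dual hne hall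
    rw [dual_dual] at h1
    exact dvec_ne e e' (no_small hv hco ε hε h1 (spt_dvec e e'))
  -- the dual is nonzero
  have hDne : dual U ≠ ⊥ := by
    obtain ⟨w, hw, hw'⟩ := hsepD ⟨0, by omega⟩ ⟨1, by omega⟩ (by
      intro h
      have := congrArg Fin.val h
      simp at this)
    rw [Submodule.ne_bot_iff]
    exact ⟨w, hw, fun h => hw' (by rw [h]; rfl)⟩
  have hρ : 1 ≤ finrank F (dual U) := by
    rw [Nat.one_le_iff_ne_zero, Ne, Submodule.finrank_eq_zero]
    exact hDne
  have hN1 : #E ≤ 2 * κ * finrank F (dual U) := by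
    have h1 : #E ≤ κ * (finrank F (dual U) + 1) := hlin _ _ hPD hsepD
    calc #E ≤ κ * (finrank F (dual U) + 1) := h1
      _ ≤ κ * (2 * finrank F (dual U)) := Nat.mul_le_mul_left _ (by omega)
      _ = 2 * κ * finrank F (dual U) := by ring
  obtain ⟨w, hw, hw0, hwle⟩ := hlog _ _ hPD hDne
  apply hfin w hw hw0
  -- the size of `w`
  have hρ' : (0 : ℝ) < finrank F (dual U) := by exact_mod_cast hρ
  have hlN : 0 ≤ Real.log ((#E : ℝ) + 1) := Real.log_nonneg (by
    have : (0 : ℝ) ≤ #E := Nat.cast_nonneg _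
    linarith)
  have h1 : (#(spt w) : ℝ) ≤ 2 * κ * C * Real.log (#E + 1) := by
    have h2 : (#E : ℝ) ≤ 2 * κ * finrank F (dual U) := by exact_mod_cast hN1
    have h3 : (#(spt w) : ℝ) * finrank F (dual U) ≤
        (2 * κ * C * Real.log (#E + 1)) * finrank F (dual U) := by
      calc (#(spt w) : ℝ) * finrank F (dual U) ≤ C * #E * Real.log (#E + 1) := hwle
        _ ≤ C * (2 * κ * finrank F (dual U)) * Real.log (#E + 1) := by
            apply mul_le_mul_of_nonneg_right _ hlN
            exact mul_le_mul_of_nonneg_left h2 (Nat.cast_nonneg _)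
        _ = (2 * κ * C * Real.log (#E + 1)) * finrank F (dual U) := by ring
    exact le_of_mul_le_mul_right h3 hρ'
  -- the size of the ground set
  have h4 : #E ≤ (q ^ 2 * (B.ncard + 1)) ^ N' := by
    have h5 : #E ≤ (q ^ 2 * (finrank F U + 1)) ^ N' := by
      apply hpol _ _ _ hsep
      exact hPD
    refine h5.trans (Nat.pow_le_pow_left (Nat.mul_le_mul_left _ (Nat.succ_le_succ ?_)) _)
    have h6 : finrank F U ≤ finrank F (Submodule.span F (v '' B)) := by
      apply finrank_rowsp_le _ _ inferInstance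
      intro e
      apply span_of_isBasis hv hB.isBasis_ground
      rw [← hε]
      exact ⟨e, rfl⟩
    refine h6.trans ?_
    have h7 : finrank F (Submodule.span F (v '' B)) ≤ (v '' B).toFinset.card :=
      finrank_span_le_card _
    rw [← Set.ncard_eq_toFinset_card'] at h7
    exact h7.trans (Set.ncard_image_le (Set.toFinite _))
  have h5 := log_ineq hq1 hB2 h4
  rw [← hK] at h5
  calc (#(spt w) : ℝ) ≤ 2 * κ * C * Real.log (#E + 1) := h1
    _ ≤ 2 * κ * C * (K * Real.log B.ncard) := mul_le_mul_of_nonneg_left h5 (by positivity)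
    _ = (2 * κ * C * K) * Real.log B.ncard := by ring
    _ ≤ c * Real.log B.ncard := mul_le_mul_of_nonneg_right (by linarith) hlr0.le

end Pool.Agent.H456.Girth
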