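import Mathlib

/-!
# Linear independence of edges of a complete graph does not depend on the field
-/

open Finset

open scoped Classical

namespace Pool.Agent.H456.Girth

variable {n : ℕ}

/-- The vector of the edge `p`. -/
def ev (K : Type*) [Field K] (p : Fin n × Fin n) : Fin n → K :=
  Pi.single p.1 1 - Pi.single p.2 1

/-- The edges of `J` at the vertex `x`. -/
noncomputable def inc (J : Finset (Fin n × Fin n)) (x : Fin n) : Finset (Fin n × Fin n) :=
  J.filter fun p => p.1 = x ∨ p.2 = x

theorem ev_apply (K : Type*) [Field K] (p : Fin n × Fin n) (x : Fin n) :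
    ev K p x = (if x = p.1 then 1 else 0) - (if x = p.2 then 1 else 0) := by
  simp [ev, Pi.single_apply]

theorem li_iff (K : Type*) [Field K] (I : Set (Fin n × Fin n)) (hI : ∀ p ∈ I, p.1 < p.2) :
    LinearIndependent K (fun p : I => ev K p.1) ↔
      ∀ J : Finset (Fin n × Fin n), (∀ p ∈ J, p ∈ I) → J.Nonempty → ∃ x, #(inc J x) = 1 := by
  constructor
  · intro hli J hJI hJ
    by_contra hall
    push Not at hall
    set T : Finset (Fin n) := univ.filter fun x => (inc J x).Nonempty with hT
    have hdeg : ∀ x ∈ T, 2 ≤ #(inc J x) := by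
      intro x hx
      have h1 : 0 < #(inc J x) := card_pos.2 (mem_filter.1 hx).2
      have h2 := hall x
      omega
    have hsum : ∑ x ∈ T, #(inc J x) = 2 * #J := by
      have h1 : ∑ x ∈ T, #(inc J x) = ∑ x : Fin n, #(inc J x) := by
        apply sum_subset (subset_univ _)
        intro x _ hx
        rw [hT, mem_filter] at hx
        push Not at hx
        rw [hx (mem_univ _), card_empty]
      rw [h1]
      have h2 : ∀ x, #(inc J x) = ∑ p ∈ J, if p.1 = x ∨ p.2 = x then 1 else 0 := by
        intro x
        rw [inc, card_filter]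
      simp_rw [h2]
      rw [sum_comm]
      have h3 : ∀ p ∈ J, ∑ x : Fin n, (if p.1 = x ∨ p.2 = x then 1 else 0) = 2 := by
        intro p hp
        have hlt := hI p (hJI p hp)
        rw [← card_filter]
        have h4 : (univ.filter fun x => p.1 = x ∨ p.2 = x) = {p.1, p.2} := by
          ext x
          simp only [mem_filter, mem_univ, true_and, mem_insert, mem_singleton]
          constructor
          · rintro (h | h)
            · exact Or.inl h.symm
            · exact Or.inr h.symm
          · rintro (h | h)
            · exact Or.inl h.symm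
            · exact Or.inr h.symm
        rw [h4, card_pair hlt.ne]
      rw [sum_congr rfl h3, sum_const, smul_eq_mul, mul_comm]
    have hTJ : #T ≤ #J := by
      have h1 : ∑ _x ∈ T, 2 ≤ ∑ x ∈ T, #(inc J x) := sum_le_sum hdeg
      rw [sum_const, smul_eq_mul, hsum] at h1
      omega
    obtain ⟨p₀, hp₀⟩ := hJ
    have hx₀ : p₀.1 ∈ T := by
      rw [hT, mem_filter]
      exact ⟨mem_univ _, ⟨p₀, mem_filter.2 ⟨hp₀, Or.inl rfl⟩⟩⟩
    -- the family indexed by `J`
    have hJli : LinearIndependent K (fun p : J => ev K p.1) :=
      hli.comp (fun p : J => (⟨p.1, hJI p.1 p.2⟩ : I)) (by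
        intro a b hab
        exact Subtype.ext (congrArg (fun z : I => z.1) hab))
    let f : (Fin n → K) →ₗ[K] ((T.erase p₀.1) → K) :=
      LinearMap.funLeft K K (fun x : (T.erase p₀.1) => (x : Fin n))
    -- all the vectors are supported on `T` and sum to zero
    have hprop : ∀ x ∈ Submodule.span K (Set.range fun p : J => ev K p.1),
        (∀ y, y ∉ T → x y = 0) ∧ ∑ y, x y = 0 := by
      intro x hx
      induction hx using Submodule.span_induction with
      | mem x hx =>
        obtain ⟨p, rfl⟩ := hx
        refine ⟨fun y hy => ?_, ?_⟩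
        · have h1 : y ≠ p.1.1 := by
            rintro rfl
            apply hy
            rw [hT, mem_filter]
            exact ⟨mem_univ _, ⟨p.1, mem_filter.2 ⟨p.2, Or.inl rfl⟩⟩⟩
          have h2 : y ≠ p.1.2 := by
            rintro rfl
            apply hy
            rw [hT, mem_filter]
            exact ⟨mem_univ _, ⟨p.1, mem_filter.2 ⟨p.2, Or.inr rfl⟩⟩⟩
          change ev K p.1 y = 0
          rw [ev_apply, if_neg h1, if_neg h2, sub_zero]
        · change ∑ y, ev K p.1 y = 0
          simp_rw [ev_apply]
          rw [sum_sub_distrib, sum_ite_eq' univ, sum_ite_eq' univ, if_pos (mem_univ _),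
            if_pos (mem_univ _), sub_self]
      | zero => exact ⟨fun _ _ => rfl, by simp⟩
      | add x y _ _ hx hy =>
        refine ⟨fun z hz => by rw [Pi.add_apply, hx.1 z hz, hy.1 z hz, add_zero], ?_⟩
        simp only [Pi.add_apply]
        rw [sum_add_distrib, hx.2, hy.2, add_zero]
      | smul c x _ hx =>
        refine ⟨fun z hz => by rw [Pi.smul_apply, hx.1 z hz, smul_zero], ?_⟩
        simp only [Pi.smul_apply, smul_eq_mul]
        rw [← mul_sum, hx.2, mul_zero]
    have hinj : Set.InjOn f (Submodule.span K (Set.range fun p : J => ev K p.1)) := by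
      intro x hx y hy hxy
      have hxy' := Submodule.sub_mem _ hx hy
      obtain ⟨h1, h2⟩ := hprop _ hxy'
      have h3 : ∀ z, z ≠ p₀.1 → (x - y) z = 0 := by
        intro z hz
        by_cases hzT : z ∈ T
        · have := congrFun hxy ⟨z, mem_erase.2 ⟨hz, hzT⟩⟩
          change x z = y z at this
          rw [Pi.sub_apply, this, sub_self]
        · exact h1 z hzT
      have h4 : (x - y) p₀.1 = 0 := by
        rw [sum_eq_single p₀.1] at h2
        · exact h2
        · intro z _ hz
          exact h3 z hz
        · intro h'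
          exact absurd (mem_univ _) h'
      have h5 : x - y = 0 := by
        funext z
        by_cases hz : z = p₀.1
        · rw [hz]
          exact h4
        · exact h3 z hz
      exact sub_eq_zero.1 h5
    have hfli := hJli.map_injOn f hinj
    have h1 := hfli.fintype_card_le_finrank
    rw [Module.finrank_fintype_fun_eq_card, Fintype.card_coe, Fintype.card_coe,
      card_erase_of_mem hx₀] at h1
    have h2 : 0 < #T := card_pos.2 ⟨_, hx₀⟩
    omega
  · intro h
    rw [linearIndependent_iff']
    intro s g hg
    by_contra hne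
    push Not at hne
    obtain ⟨i₀, hi₀, hgi₀⟩ := hne
    set J : Finset (Fin n × Fin n) := (s.filter fun i => g i ≠ 0).image Subtype.val with hJ
    obtain ⟨x, hx⟩ := h J (by
      intro p hp
      obtain ⟨i, _, rfl⟩ := mem_image.1 hp
      exact i.2) ⟨i₀.1, mem_image.2 ⟨i₀, mem_filter.2 ⟨hi₀, hgi₀⟩, rfl⟩⟩
    obtain ⟨p, hp⟩ := card_eq_one.1 hx
    have hpJ : p ∈ inc J x := by rw [hp]; exact mem_singleton_self _
    obtain ⟨hpJ1, hpx⟩ := mem_filter.1 hpJ
    obtain ⟨i, hi, rfl⟩ := mem_image.1 hpJ1
    have h1 := congrFun hg x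
    rw [Finset.sum_apply, sum_eq_single i] at h1
    · rw [Pi.smul_apply, smul_eq_mul, Pi.zero_apply, ev_apply] at h1
      have hlt := hI i.1 i.2
      rcases hpx with h2 | h2
      · have h3 : x ≠ i.1.2 := by
          rw [← h2]
          exact hlt.ne
        rw [if_pos h2.symm, if_neg h3, sub_zero, mul_one] at h1
        exact (mem_filter.1 hi).2 h1
      · have h3 : x ≠ i.1.1 := by
          rw [← h2]
          exact hlt.ne'
        rw [if_neg h3, if_pos h2.symm, zero_sub, mul_neg, mul_one, neg_eq_zero] at h1
        exact (mem_filter.1 hi).2 h1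
    · intro j hj hji
      rw [Pi.smul_apply, smul_eq_mul]
      by_cases hgj : g j = 0
      · rw [hgj, zero_mul]
      · have h2 : j.1 ∉ inc J x := by
          rw [hp, mem_singleton]
          exact fun h' => hji (Subtype.ext h')
        have h3 : j.1 ∈ J := mem_image.2 ⟨j, mem_filter.2 ⟨hj, hgj⟩, rfl⟩
        have h4 : ¬ (j.1.1 = x ∨ j.1.2 = x) := fun h' => h2 (mem_filter.2 ⟨h3, h'⟩)
        push Not at h4
        rw [ev_apply, if_neg (Ne.symm h4.1), if_neg (Ne.symm h4.2), sub_zero, mul_zero]
    · intro hi'
      exact absurd (mem_filter.1 hi).1 hi'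

/-- Linear independence of edges does not depend on the field. -/
theorem li_field (K K' : Type*) [Field K] [Field K'] (I : Set (Fin n × Fin n))
    (hI : ∀ p ∈ I, p.1 < p.2) :
    LinearIndependent K (fun p : I => ev K p.1) ↔ LinearIndependent K' (fun p : I => ev K' p.1) := by
  rw [li_iff K I hI, li_iff K' I hI]

end Pool.Agent.H456.Girth
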