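import Pool.Agent.H456.Girth.Rep

/-!
# Dual cliques as minors
-/

open Finset Module

open scoped Classical

namespace Pool.Agent.H456.Girth

variable {F : Type} [Field F]

theorem isMinor_refl {m : ℕ} (U : Submodule F (Fin m → F)) : IsMinor U U :=
  ⟨Function.Embedding.refl _, ∅, by simp, fun v => ⟨fun h => ⟨v, h, by simp, fun _ => rfl⟩, by
    rintro ⟨u, hu, _, huv⟩
    have : u = v := funext huv
    rwa [← this]⟩⟩

theorem isMinor_trans {m n k : ℕ} {V : Submodule F (Fin m → F)} {W : Submodule F (Fin n → F)}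
    {U : Submodule F (Fin k → F)} (h₁ : IsMinor V W) (h₂ : IsMinor W U) : IsMinor V U := by
  obtain ⟨ι₁, C₁, hC₁, h₁⟩ := h₁
  obtain ⟨ι₂, C₂, hC₂, h₂⟩ := h₂
  refine ⟨ι₁.trans ι₂, C₂ ∪ C₁.map ι₂, ?_, ?_⟩
  · intro i hi
    rcases mem_union.1 hi with h | h
    · exact hC₂ _ h
    · obtain ⟨c, hc, hc'⟩ := mem_map.1 h
      have : c = ι₁ i := ι₂.injective hc'
      exact hC₁ i (this ▸ hc)
  · intro v
    rw [h₁]
    constructor
    · rintro ⟨w, hw, hwC, hwv⟩
      obtain ⟨u, hu, huC, huw⟩ := (h₂ w).1 hw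
      refine ⟨u, hu, ?_, ?_⟩
      · intro c hc
        rcases mem_union.1 hc with h | h
        · exact huC c h
        · obtain ⟨c', hc', rfl⟩ := mem_map.1 h
          rw [huw]
          exact hwC c' hc'
      · intro i
        change u (ι₂ (ι₁ i)) = v i
        rw [huw, hwv]
    · rintro ⟨u, hu, huC, huv⟩
      refine ⟨fun i => u (ι₂ i), (h₂ _).2 ⟨u, hu, fun c hc => huC c (mem_union_left _ hc),
        fun _ => rfl⟩, ?_, huv⟩
      intro c hc
      exact huC _ (mem_union_right _ (mem_map_of_mem _ hc))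

/-- The class of matroids without a minor isomorphic to `G`. -/
def noMinor {k : ℕ} (G : Submodule F (Fin k → F)) : MClass F := fun _ W => ¬ IsMinor G W

theorem noMinor_minorClosed {k : ℕ} (G : Submodule F (Fin k → F)) : MinorClosed (noMinor G) :=
  fun _ _ _ _ h h' h'' => h (isMinor_trans h'' h')

theorem not_noMinor {k : ℕ} (G : Submodule F (Fin k → F)) : ¬ noMinor G k G :=
  fun h => h (isMinor_refl G)

/-- The edges of the complete graph. -/
abbrev Pr (n : ℕ) : Type := {p : Fin n × Fin n // p.1 < p.2}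

/-- An enumeration of the edges. -/
noncomputable def enum (n : ℕ) : Pr n ≃ Fin (Fintype.card (Pr n)) := Fintype.equivFin _

/-- The represented cycle matroid of the complete graph. -/
noncomputable def KG (F : Type) [Field F] (n : ℕ) :
    Submodule F (Fin (Fintype.card (Pr n)) → F) :=
  graphic (s := n) (fun i => ((enum n).symm i).1.1) (fun i => ((enum n).symm i).1.2)

theorem mem_dual_KG {n : ℕ} {x : Fin (Fintype.card (Pr n)) → F} :
    x ∈ dual (KG F n) ↔ ∑ i, x i • ev F ((enum n).symm i).1 = 0 := by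
  have key : ∀ (z : Fin n), (∑ i, x i • ev F ((enum n).symm i).1) z =
      ∑ i, x i * ((if z = ((enum n).symm i).1.1 then 1 else 0) -
        (if z = ((enum n).symm i).1.2 then 1 else 0)) := by
    intro z
    rw [Finset.sum_apply]
    apply sum_congr rfl
    intro i _
    rw [Pi.smul_apply, smul_eq_mul, ev_apply]
  constructor
  · intro h
    funext z
    rw [key, Pi.zero_apply]
    have := h (fun i => (if z = ((enum n).symm i).1.1 then 1 else 0) -
        (if z = ((enum n).symm i).1.2 then 1 else 0)) (mem_graphic.2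
          ⟨fun w => if z = w then 1 else 0, fun e => rfl⟩)
    exact this
  · intro h u hu
    obtain ⟨c, hc⟩ := mem_graphic.1 hu
    have h1 : ∀ i, u i = ∑ z, c z * ((if z = ((enum n).symm i).1.1 then 1 else 0) -
        (if z = ((enum n).symm i).1.2 then 1 else 0)) := by
      intro i
      rw [hc]
      simp_rw [mul_sub, mul_ite, mul_one, mul_zero]
      rw [sum_sub_distrib, sum_ite_eq' univ, sum_ite_eq' univ, if_pos (mem_univ _),
        if_pos (mem_univ _)]
    calc ∑ i, x i * u i = ∑ i, ∑ z, c z * (x i * ((if z = ((enum n).symm i).1.1 then 1 else 0) -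
          (if z = ((enum n).symm i).1.2 then 1 else 0))) := by
          apply sum_congr rfl
          intro i _
          rw [h1, mul_sum]
          apply sum_congr rfl
          intro z _
          ring
      _ = ∑ z, c z * (∑ i, x i • ev F ((enum n).symm i).1) z := by
          rw [sum_comm]
          apply sum_congr rfl
          intro z _
          rw [key, mul_sum]
      _ = 0 := by
          rw [h]
          simp

/-- Linear independence of a set of edges, in terms of the dual of the complete graph. -/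
theorem li_iff_dual {n : ℕ} (I : Set (Fin n × Fin n)) (hI : I ⊆ {p | p.1 < p.2}) :
    LinearIndependent F (fun p : I => ev F p.1) ↔
      ∀ x ∈ dual (KG F n), (∀ j, ((enum n).symm j).1 ∉ I → x j = 0) → x = 0 := by
  let e : I → Fin (Fintype.card (Pr n)) := fun p => enum n ⟨p.1, hI p.2⟩
  have he : Function.Injective e := by
    intro a b hab
    have := (enum n).injective hab
    exact Subtype.ext (congrArg (fun z : Pr n => z.1) this)
  have hes : ∀ p : I, ((enum n).symm (e p)).1 = p.1 := by
    intro p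
    rw [Equiv.symm_apply_apply]
  have her : ∀ j, ((enum n).symm j).1 ∈ I → ∃ p : I, e p = j := by
    intro j hj
    refine ⟨⟨_, hj⟩, ?_⟩
    apply (enum n).symm.injective
    apply Subtype.ext
    exact hes _
  rw [Fintype.linearIndependent_iff]
  constructor
  · intro h x hx hx0
    rw [mem_dual_KG] at hx
    have h1 : ∑ p : I, x (e p) • ev F p.1 = 0 := by
      rw [← hx]
      apply Fintype.sum_of_injective e he
      · intro j hj
        rw [hx0 j, zero_smul]
        intro h'
        obtain ⟨p, hp⟩ := her j h'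
        exact hj ⟨p, hp⟩
      · intro p
        rw [hes]
    have h2 := h _ h1
    funext j
    by_cases hj : ((enum n).symm j).1 ∈ I
    · obtain ⟨p, rfl⟩ := her j hj
      exact h2 p
    · exact hx0 j hj
  · intro h g hg p
    let x : Fin (Fintype.card (Pr n)) → F := fun j =>
      if hj : ((enum n).symm j).1 ∈ I then g ⟨_, hj⟩ else 0
    have hxe : ∀ p : I, x (e p) = g p := by
      intro p
      have h1 : ((enum n).symm (e p)).1 ∈ I := by
        rw [hes]
        exact p.2
      change (if hj : ((enum n).symm (e p)).1 ∈ I then g ⟨_, hj⟩ else 0) = g p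
      rw [dif_pos h1]
      congr 1
      exact Subtype.ext (hes p)
    have hx0 : ∀ j, ((enum n).symm j).1 ∉ I → x j = 0 := fun j hj => dif_neg hj
    have hx : x ∈ dual (KG F n) := by
      rw [mem_dual_KG, ← hg]
      symm
      apply Fintype.sum_of_injective e he
      · intro j hj
        rw [hx0 j, zero_smul]
        intro h'
        obtain ⟨p, hp⟩ := her j h'
        exact hj ⟨p, hp⟩
      · intro p
        rw [hes, hxe]
    have := congrFun (h x hx hx0) (e p)
    rwa [hxe] at this

variable {α : Type} [Fintype α] {M : Matroid α} {m : ℕ} {v : α → (Fin m → F)}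

/-- **A dual clique minor.** -/
theorem exists_of_isMinor
    (hv : ∀ I : Set α, M.Indep I ↔ (I ⊆ M.E ∧ LinearIndependent F (fun x : I => v x)))
    {n N : ℕ} (ε : Fin N → α) (hεi : Function.Injective ε) (hε : Set.range ε = M.E)
    (a₀ : α) (h : IsMinor (dual (KG F n)) (rowsp fun i => v (ε i))) :
    ∃ (C D : Set α) (f : Fin n × Fin n → α),
      Set.InjOn f {p : Fin n × Fin n | p.1 < p.2} ∧
      f '' {p : Fin n × Fin n | p.1 < p.2} = ((M.dual.contract C).delete D).E ∧
      ∀ I : Set (Fin n × Fin n), I ⊆ {p : Fin n × Fin n | p.1 < p.2} →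
        (((M.dual.contract C).delete D).Indep (f '' I) ↔
          LinearIndependent ℚ (fun p : I => ev ℚ p.1)) := by
  obtain ⟨ι, C₂, hC₂, hU⟩ := h
  let f : Fin n × Fin n → α := fun p => if hp : p.1 < p.2 then ε (ι (enum n ⟨p, hp⟩)) else a₀
  have hf : ∀ (p : Fin n × Fin n) (hp : p.1 < p.2), f p = ε (ι (enum n ⟨p, hp⟩)) :=
    fun p hp => dif_pos hp
  have hfinj : Set.InjOn f {p : Fin n × Fin n | p.1 < p.2} := by
    intro p hp p' hp' hpp
    rw [hf p hp, hf p' hp'] at hpp
    have := (enum n).injective (ι.injective (hεi hpp))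
    exact congrArg Subtype.val this
  have himg : f '' {p : Fin n × Fin n | p.1 < p.2} = Set.range fun j => ε (ι j) := by
    ext x
    constructor
    · rintro ⟨p, hp, rfl⟩
      exact ⟨enum n ⟨p, hp⟩, (hf p hp).symm⟩
    · rintro ⟨j, rfl⟩
      refine ⟨((enum n).symm j).1, ((enum n).symm j).2, ?_⟩
      rw [hf _ ((enum n).symm j).2]
      simp
  set D : Set α := ε '' (C₂ : Set (Fin N)) with hD
  set C : Set α := M.E \ (Set.range (fun j => ε (ι j)) ∪ D) with hC
  have hCE : C ⊆ M.E := Set.sdiff_subset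
  have hrE : (Set.range fun j => ε (ι j)) ⊆ M.E := by
    rintro _ ⟨j, rfl⟩
    rw [← hε]
    exact ⟨_, rfl⟩
  have hdisD : ∀ j, ε (ι j) ∉ D := by
    rintro j ⟨c, hc, hcj⟩
    have := hεi hcj
    exact hC₂ j (this ▸ hc)
  refine ⟨C, D, f, hfinj, ?_, ?_⟩
  · rw [himg]
    ext x
    rw [Matroid.delete_ground, Matroid.contract_ground, Matroid.dual_ground]
    constructor
    · rintro ⟨j, rfl⟩
      refine ⟨⟨hrE ⟨j, rfl⟩, fun h => h.2 (Or.inl ⟨j, rfl⟩)⟩, hdisD j⟩
    · rintro ⟨⟨hxE, hxC⟩, hxD⟩
      by_contra hx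
      exact hxC ⟨hxE, fun h => h.elim hx hxD⟩
  · intro I hI
    have hfI : ∀ x, x ∈ f '' I ↔ ∃ j, ε (ι j) = x ∧ ((enum n).symm j).1 ∈ I := by
      intro x
      constructor
      · rintro ⟨p, hp, rfl⟩
        refine ⟨enum n ⟨p, hI hp⟩, (hf p (hI hp)).symm, ?_⟩
        rw [Equiv.symm_apply_apply]
        exact hp
      · rintro ⟨j, rfl, hj⟩
        refine ⟨_, hj, ?_⟩
        rw [hf _ ((enum n).symm j).2]
        simp
    have hdis : Disjoint (f '' I) D := by
      rw [Set.disjoint_left]
      intro x hx hxD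
      obtain ⟨j, rfl, _⟩ := (hfI x).1 hx
      exact hdisD j hxD
    have hdisC : Disjoint C (f '' I) := by
      rw [Set.disjoint_left]
      intro x hxC hx
      obtain ⟨j, rfl, _⟩ := (hfI x).1 hx
      exact hxC.2 (Or.inl ⟨j, rfl⟩)
    have hsub : f '' I ⊆ M.E := by
      intro x hx
      obtain ⟨j, rfl, _⟩ := (hfI x).1 hx
      exact hrE ⟨j, rfl⟩
    rw [Matroid.delete_indep_iff, contract_indep_iff hv hCE,
      li_field ℚ F I hI, li_iff_dual I hI]
    constructor
    · rintro ⟨⟨_, _, h⟩, _⟩ x hx hx0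
      obtain ⟨u, hu, huC, hux⟩ := (hU x).1 hx
      obtain ⟨φ, hφ⟩ := mem_rowsp.1 hu
      have h1 := h φ (by
        intro y hyE hyI hyC
        by_cases hyr : y ∈ Set.range fun j => ε (ι j)
        · obtain ⟨j, rfl⟩ := hyr
          change φ (v (ε (ι j))) = 0
          rw [hφ, hux]
          apply hx0
          intro h'
          exact hyI ((hfI _).2 ⟨j, rfl, h'⟩)
        · have hyD : y ∈ D := by
            by_contra hyD
            exact hyC ⟨hyE, fun h' => h'.elim hyr hyD⟩
          obtain ⟨c, hc, rfl⟩ := hyD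
          rw [hφ]
          exact huC c hc)
      funext j
      by_cases hj : ((enum n).symm j).1 ∈ I
      · have := h1 _ ((hfI _).2 ⟨j, rfl, hj⟩)
        rw [hφ, hux] at this
        exact this
      · exact hx0 j hj
    · intro h
      refine ⟨⟨hsub, hdisC, fun φ hφ => ?_⟩, hdis⟩
      have h1 := h (fun j => φ (v (ε (ι j)))) ((hU _).2 ⟨fun i => φ (v (ε i)),
        mem_rowsp.2 ⟨φ, fun _ => rfl⟩, ?_, fun _ => rfl⟩) ?_
      · intro x hx
        obtain ⟨j, rfl, _⟩ := (hfI x).1 hx
        exact congrFun h1 j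
      · intro c hc
        have hcD : ε c ∈ D := ⟨c, hc, rfl⟩
        apply hφ _ (by rw [← hε]; exact ⟨c, rfl⟩)
        · intro h'
          exact (Set.disjoint_left.1 hdis h') hcD
        · intro h'
          exact h'.2 (Or.inr hcD)
      · intro j hj
        apply hφ _ (hrE ⟨j, rfl⟩)
        · intro h'
          obtain ⟨j', hj', hj'I⟩ := (hfI _).1 h'
          have := ι.injective (hεi hj')
          exact hj (this ▸ hj'I)
        · intro h'
          exact h'.2 (Or.inl ⟨j, rfl⟩)

end Pool.Agent.H456.Girth
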