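import Pool.Agent.H456.Girth.Forest
import Pool.Agent.H456.Mat.Log

/-!
# Represented matroids as matroids
-/

open Finset Module

open scoped Classical

namespace Pool.Agent.H456.Girth

variable {F : Type} [Field F] {α : Type} [Fintype α] {M : Matroid α} {m : ℕ}
  {v : α → (Fin m → F)}

theorem span_of_isBasis
    (hv : ∀ I : Set α, M.Indep I ↔ (I ⊆ M.E ∧ LinearIndependent F (fun x : I => v x)))
    {I X : Set α} (h : M.IsBasis I X) {x : α} (hx : x ∈ X) :
    v x ∈ Submodule.span F (v '' I) := by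
  by_contra hnot
  have hxI : x ∉ I := fun h' => hnot (Submodule.subset_span ⟨x, h', rfl⟩)
  have h1 : LinearIndepOn F v I := ((hv I).1 h.indep).2
  have h2 : LinearIndepOn F v (insert x I) := h1.insert hnot
  have h3 : M.Indep (insert x I) := (hv _).2 ⟨Set.insert_subset (h.subset_ground hx)
    h.indep.subset_ground, h2⟩
  exact hxI (h.mem_of_insert_indep hx h3)

theorem dual_indep_iff
    (hv : ∀ I : Set α, M.Indep I ↔ (I ⊆ M.E ∧ LinearIndependent F (fun x : I => v x)))
    (I : Set α) : M.dual.Indep I ↔ I ⊆ M.E ∧ ∀ φ : (Fin m → F) →ₗ[F] F,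
      (∀ x ∈ M.E, x ∉ I → φ (v x) = 0) → ∀ x ∈ M.E, φ (v x) = 0 := by
  rw [Matroid.dual_indep_iff_exists']
  apply and_congr_right
  intro hI
  constructor
  · rintro ⟨B, hB, hdis⟩ φ hφ x hx
    have h1 := span_of_isBasis hv hB.isBasis_ground hx
    have h2 : Submodule.span F (v '' B) ≤ LinearMap.ker φ := by
      rw [Submodule.span_le]
      rintro _ ⟨b, hb, rfl⟩
      exact hφ b (hB.subset_ground hb) fun h' => (Set.disjoint_left.1 hdis h') hb
    exact h2 h1
  · intro h
    obtain ⟨B, hB⟩ := M.exists_isBasis (M.E \ I) Set.sdiff_subset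
    refine ⟨B, ?_, ?_⟩
    · apply hB.indep.isBase_of_maximal
      intro J hJ hBJ
      apply Set.Subset.antisymm hBJ
      intro x hx
      by_contra hxB
      have hxE := hJ.subset_ground hx
      have h1 : LinearIndepOn F v (insert x B) := by
        have := ((hv J).1 hJ).2
        exact LinearIndepOn.mono (s := J) this (Set.insert_subset hx hBJ)
      have h2 : v x ∉ Submodule.span F (v '' B) :=
        (linearIndepOn_insert hxB).1 h1 |>.2
      obtain ⟨φ, hφ, hle⟩ := Submodule.exists_le_ker_of_notMem h2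
      apply hφ
      apply h φ _ x hxE
      intro y hyE hyI
      exact hle (span_of_isBasis hv hB ⟨hyE, hyI⟩)
    · rw [Set.disjoint_left]
      intro x hx hxB
      exact (hB.subset hxB).2 hx

theorem contract_indep_iff
    (hv : ∀ I : Set α, M.Indep I ↔ (I ⊆ M.E ∧ LinearIndependent F (fun x : I => v x)))
    {C : Set α} (hC : C ⊆ M.E) (J : Set α) :
    (M.dual.contract C).Indep J ↔ J ⊆ M.E ∧ Disjoint C J ∧ ∀ φ : (Fin m → F) →ₗ[F] F,
      (∀ x ∈ M.E, x ∉ J → x ∉ C → φ (v x) = 0) → ∀ x ∈ J, φ (v x) = 0 := by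
  obtain ⟨I, hI⟩ := M.dual.exists_isBasis C hC
  rw [hI.contract_indep_iff, dual_indep_iff hv]
  have hIind := (dual_indep_iff hv I).1 hI.indep
  constructor
  · rintro ⟨⟨hsub, h⟩, hdis⟩
    refine ⟨fun x hx => hsub (Or.inl hx), hdis, fun φ hφ x hx => ?_⟩
    -- the functionals that are dual to the elements of `C \ I`
    have hex : ∀ c : α, ∃ ψ : (Fin m → F) →ₗ[F] F, c ∈ C → c ∉ I →
        (∀ x ∈ M.E, x ∉ insert c I → ψ (v x) = 0) ∧ ψ (v c) ≠ 0 := by
      intro c
      by_cases hc : c ∈ C ∧ c ∉ I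
      · have h1 : ¬ M.dual.Indep (insert c I) := fun h' => hc.2 (hI.mem_of_insert_indep hc.1 h')
        rw [dual_indep_iff hv] at h1
        push Not at h1
        obtain ⟨ψ, hψ, y, hyE, hy⟩ := h1 (Set.insert_subset (hC hc.1) hIind.1)
        refine ⟨ψ, fun _ _ => ⟨hψ, fun h0 => hy ?_⟩⟩
        apply hIind.2 ψ _ y hyE
        intro z hzE hzI
        by_cases hzc : z = c
        · rw [hzc]
          exact h0
        · exact hψ z hzE fun h' => h'.elim hzc hzI
      · exact ⟨0, fun h1 h2 => absurd ⟨h1, h2⟩ hc⟩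
    choose ψ hψ using hex
    set S : Finset α := univ.filter fun c => c ∈ C ∧ c ∉ I with hS
    set φ' : (Fin m → F) →ₗ[F] F := φ - ∑ c ∈ S, (φ (v c) * (ψ c (v c))⁻¹) • ψ c with hφ'
    have happ : ∀ y, φ' (v y) = φ (v y) - ∑ c ∈ S, (φ (v c) * (ψ c (v c))⁻¹) * ψ c (v y) := by
      intro y
      rw [hφ', LinearMap.sub_apply, LinearMap.sum_apply]
      rfl
    have h0 := h φ' (by
      intro y hyE hy
      rw [happ]
      have hyJ : y ∉ J := fun h' => hy (Or.inl h')
      have hyI : y ∉ I := fun h' => hy (Or.inr h')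
      by_cases hyC : y ∈ C
      · rw [sum_eq_single y]
        · rw [mul_assoc, inv_mul_cancel₀ (hψ y hyC hyI).2, mul_one, sub_self]
        · intro c hc hcy
          obtain ⟨hc1, hc2⟩ := (mem_filter.1 hc).2
          rw [(hψ c hc1 hc2).1 y hyE, mul_zero]
          exact fun h' => h'.elim (fun h'' => hcy h''.symm) hyI
        · intro h'
          exact absurd (mem_filter.2 ⟨mem_univ _, hyC, hyI⟩) h'
      · rw [hφ y hyE hyJ hyC, sum_eq_zero, sub_zero]
        intro c hc
        obtain ⟨hc1, hc2⟩ := (mem_filter.1 hc).2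
        rw [(hψ c hc1 hc2).1 y hyE, mul_zero]
        exact fun h' => h'.elim (fun h'' => hyC (h'' ▸ hc1)) hyI) x (hsub (Or.inl hx))
    rw [happ, sum_eq_zero, sub_zero] at h0
    · exact h0
    · intro c hc
      obtain ⟨hc1, hc2⟩ := (mem_filter.1 hc).2
      rw [(hψ c hc1 hc2).1 x (hsub (Or.inl hx)), mul_zero]
      rintro (h' | h')
      · exact (Set.disjoint_left.1 hdis (h' ▸ hc1)) hx
      · exact (Set.disjoint_left.1 hdis (hI.subset h')) hx
  · rintro ⟨hJ, hdis, h⟩
    refine ⟨⟨Set.union_subset hJ hIind.1, fun φ hφ => ?_⟩, hdis⟩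
    have h1 : ∀ x ∈ J, φ (v x) = 0 := by
      apply h φ
      intro x hxE hxJ hxC
      exact hφ x hxE fun h' => h'.elim hxJ fun h'' => hxC (hI.subset h'')
    apply hIind.2 φ
    intro x hxE hxI
    by_cases hxJ : x ∈ J
    · exact h1 x hxJ
    · exact hφ x hxE fun h' => h'.elim hxJ hxI

end Pool.Agent.H456.Girth
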